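import Pool.Agent.Lib_MP_f55cd4.Chain

namespace Pool.Agent.Results.MP_f55cd4_nt.PrimePairs

open MPf55cd4

theorem result (m : ℕ) (hm : 1 ≤ m) (hz : ∃ z : ℤ, P m = z) :
    (m = 1 ∨ m = 2 ∨ m = 3 ∨ m = 4 ∨ m = 8) ∨
      (10 ^ 1000 < prm m ∧ ∀ q : ℕ, q.Prime →
        ¬ ((2 * q + 1).Prime ∧ 2 * q + 1 ≤ prm m ∧ prm m + 1 < 4 * q) ∧
        ¬ ((2 * q - 1).Prime ∧ 2 * q - 1 ≤ prm m ∧ prm m < 4 * q + 1)) := by
  by_cases c : prm m < 6000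
  · exact Or.inl (int_small m hm hz c)
  · right
    have hnp : ∀ q, ¬ Pair q (prm m) := fun q hq =>
      not_int_of_pair hm (not_lt.mp c) hq hz
    refine ⟨?_, ?_⟩
    · by_contra hcon
      obtain ⟨q, hq⟩ := allpair' (prm m) (by omega) (not_lt.mp hcon)
      exact hnp q hq
    · intro q hq
      exact ⟨fun h => hnp q ⟨hq, Or.inl h⟩, fun h => hnp q ⟨hq, Or.inr h⟩⟩

end Pool.Agent.Results.MP_f55cd4_nt.PrimePairs
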