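import Pool.Agent.Lib_MP_f55cd4.Dense

/-!
# Products of `(p+1)/(p-1)`: values with small denominator are sparse and well spaced
-/

set_option autoImplicit false

namespace Pool.Agent.Results.MP_f55cd4_nt.SparseDenominators

open Finset MPf55cd4

/-- There are constants `c, C > 0` such that for all `D`: if `2 ≤ m < m'` and both `P_m`, `P_m'`
have denominator at most `D` then `m' - m ≥ c p_m / (D log p_m)^2`, and for every `M ≥ 2` at most
`C D^2 (log M)^2` of the indices `m ≤ M` have `P_m` of denominator at most `D`. -/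
theorem result : ∃ c C : ℝ, 0 < c ∧ 0 < C ∧ ∀ D : ℕ, 1 ≤ D →
    (∀ m m' : ℕ, 2 ≤ m → m < m' → (P m).den ≤ D → (P m').den ≤ D →
      c * (prm m : ℝ) / ((D : ℝ) ^ 2 * Real.log (prm m) ^ 2) ≤ (m' : ℝ) - m) ∧
    (∀ M : ℕ, 2 ≤ M →
      ((((Icc 1 M).filter (fun m => (P m).den ≤ D)).card : ℕ) : ℝ) ≤
        C * (D : ℝ) ^ 2 * Real.log M ^ 2) := by
  obtain ⟨A, hA0, hA⟩ := P_log_sq
  obtain ⟨B, hB0, hB⟩ := log_prm
  refine ⟨1 / (8 * A), A * (2 * B) ^ 2, by positivity, by positivity, fun D hD => ⟨?_, ?_⟩⟩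
  · intro m m' hm hmm h1 h2
    have h3 := spacing_raw D m m' hmm h1 h2
    have hD1 : (1 : ℝ) ≤ D := by exact_mod_cast hD
    have hp2 : (2 : ℝ) ≤ prm m := by exact_mod_cast prm_two_le m
    have hlog : 0 < Real.log (prm m) := Real.log_pos (by linarith)
    have hd : (0 : ℝ) < (m' : ℝ) - m := by
      have : (m : ℝ) < m' := by exact_mod_cast hmm
      linarith
    have h4 : 4 * (D : ℝ) ^ 2 * ((P m : ℚ) : ℝ) * ((m' : ℝ) - m) ≤
        4 * (D : ℝ) ^ 2 * (A * Real.log (prm m) ^ 2) * ((m' : ℝ) - m) := by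
      apply mul_le_mul_of_nonneg_right _ hd.le
      exact mul_le_mul_of_nonneg_left (hA m hm) (by positivity)
    rw [div_le_iff₀ (by positivity), div_mul_eq_mul_div, div_le_iff₀ (by positivity)]
    nlinarith
  · intro M hM
    have h1 := count_raw D M
    have h2 := hA M hM
    have h3 := hB M (by omega)
    have hM2 : (2 : ℝ) ≤ M := by exact_mod_cast hM
    have hlM : 0 < Real.log M := Real.log_pos (by linarith)
    have h4 : Real.log ((M : ℝ) + 1) ≤ 2 * Real.log M := by
      have e : 2 * Real.log (M : ℝ) = Real.log ((M : ℝ) ^ 2) := by rw [Real.log_pow]; norm_num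
      rw [e]
      apply Real.log_le_log (by linarith)
      nlinarith
    have h5 : Real.log (prm M) ≤ 2 * B * Real.log M := by nlinarith
    have hp2 : (2 : ℝ) ≤ prm M := by exact_mod_cast prm_two_le M
    have h6 : 0 ≤ Real.log (prm M) := Real.log_nonneg (by linarith)
    have h7 : Real.log (prm M) ^ 2 ≤ (2 * B * Real.log M) ^ 2 := pow_le_pow_left₀ h6 h5 2
    have hD0 : (0 : ℝ) ≤ (D : ℝ) ^ 2 := by positivity
    calc ((((Icc 1 M).filter (fun m => (P m).den ≤ D)).card : ℕ) : ℝ)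
        ≤ (D : ℝ) ^ 2 * ((P M : ℚ) : ℝ) := h1
      _ ≤ (D : ℝ) ^ 2 * (A * (2 * B * Real.log M) ^ 2) := by
          apply mul_le_mul_of_nonneg_left _ hD0
          exact h2.trans (mul_le_mul_of_nonneg_left h7 hA0.le)
      _ = _ := by ring

end Pool.Agent.Results.MP_f55cd4_nt.SparseDenominators
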